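import Mathlib
import Pool.Agent.H1.ExtA

theorem Pool.Agent.Results.MP_771c73_an.Disproof.result (𝕜 : Type) [RCLike 𝕜] :
    ∃ (E : Type) (_ : NormedAddCommGroup E) (_ : NormedSpace 𝕜 E) (_ : CompleteSpace E)
      (_ : TopologicalSpace.SeparableSpace E) (G : Submodule 𝕜 E) (φ : ℕ → (G →L[𝕜] 𝕜)),
      IsClosed (G : Set E) ∧ (∀ n, ‖φ n‖ ≤ 1) ∧
      ∀ f : ℕ → (E →L[𝕜] 𝕜), (∀ n, ∀ g : G, f n g = φ n g) → (∃ C, ∀ n, ‖f n‖ ≤ C) →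
        ¬ Dense {z : E | ∃ g ∈ G, ∃ y, (∀ n, f n y = 0) ∧ z = g + y} :=
  Pool.Agent.H1.Ext.main 𝕜
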